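import Pool.Agent.NDR.StmtsM

set_option autoImplicit false

/-!
# NDL, row LPB: the output of the linear programming block
-/

namespace Pool.Agent.NDR.H1

open Finset Pool.Agent.Helper30_Simp

/-- the exponent as an integer vector -/
def cz {σ : Type} (α : σ →₀ ℕ) : σ → ℤ := fun i => ((α i : ℕ) : ℤ)

theorem cz_inj {σ : Type} : Function.Injective (cz (σ := σ)) := by
  intro a b h
  ext i
  have := congrFun h i
  simpa [cz] using this

theorem toZ_eq {σ : Type} [Fintype σ] (M : Finset (σ →₀ ℕ)) (l : (σ → ℤ) → ℝ) (i : σ) :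
    ∑ a ∈ toZ M, l a * ((a i : ℤ) : ℝ) = ∑ α ∈ M, l (cz α) * ((α i : ℕ) : ℝ) := by
  classical
  have h : toZ M = M.image cz := by
    unfold toZ
    ext z
    simp only [Finset.mem_image]
    exact Iff.rfl
  rw [h, Finset.sum_image (fun a _ b _ hab => cz_inj hab)]
  refine Finset.sum_congr rfl fun a _ => ?_
  simp [cz]

theorem den_clear {τ : Type} (B : Finset τ) (t : τ → ℚ) :
    ∃ D : ℕ, 0 < D ∧ ∀ b ∈ B, ∃ z : ℤ, t b * (D : ℚ) = z := by
  classical
  refine ⟨∏ b ∈ B, (t b).den, Finset.prod_pos fun b _ => (t b).den_pos, fun b hb => ?_⟩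
  refine ⟨(t b).num * ∏ c ∈ B.erase b, ((t c).den : ℤ), ?_⟩
  rw [← Finset.mul_prod_erase B (fun c => (t c).den) hb]
  push_cast
  have h : t b * ((t b).den : ℚ) = (t b).num := Rat.mul_den_eq_num (t b)
  rw [← mul_assoc, h]

theorem weight_sum {σ : Type} [Fintype σ] (A : Finset (σ →₀ ℕ)) (κ : σ → ℕ) (N : ℕ)
    (hA : ∀ a ∈ A, ∑ i, κ i * a i = N) (ν : (σ →₀ ℕ) → ℝ) (q : σ → ℝ)
    (hq : ∀ i, κ i ≠ 0 → q i = cmbR A ν i) :
    ∑ i, (κ i : ℝ) * q i = (N : ℝ) * ∑ a ∈ A, ν a := by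
  have h1 : ∀ i ∈ (Finset.univ : Finset σ), (κ i : ℝ) * q i = (κ i : ℝ) * cmbR A ν i := by
    intro i _
    by_cases h : κ i = 0
    · simp [h]
    · rw [hq i h]
  rw [Finset.sum_congr rfl h1]
  unfold cmbR
  simp_rw [Finset.mul_sum]
  rw [Finset.sum_comm]
  refine Finset.sum_congr rfl fun a ha => ?_
  have h2 : ∑ i, (κ i : ℝ) * (ν a * (a i : ℝ)) = ν a * ((∑ i, κ i * a i : ℕ) : ℝ) := by
    push_cast
    rw [Finset.mul_sum]
    exact Finset.sum_congr rfl fun i _ => by ring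
  rw [h2, hA a ha]
  ring

theorem lpb (hmnf : MnfStmt) (hlpr : LprStmt) (hdgr : DgrStmt) (hwsk : WskStmt) (hflt : FltStmt) :
    LPBStmt := by
  classical
  intro σ _ M κ N B hN hge hBM hBne hdot hind hflat hgood
  obtain ⟨κ', N', hN', hz, hge', hB', hslope, hmin⟩ :=
    hmnf σ M B κ N hN (fun a ha => hge a ha) hBM (fun b hb => hdot b hb)
      (fun v hv hb => hflat v hv hb)
  set A : Finset (σ →₀ ℕ) := lev M κ' N' with hAdef
  set I : Finset σ := sup κ' with hIdef
  have memA : ∀ a, a ∈ A ↔ a ∈ M ∧ ∑ i, κ' i * a i = N' := by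
    intro a
    simp [hAdef, lev, dot]
  have memI : ∀ i, i ∈ I ↔ κ' i ≠ 0 := by
    intro i
    simp [hIdef, sup]
  have hA : ∀ a ∈ A, ∑ i, κ' i * a i = N' := fun a ha => ((memA a).1 ha).2
  have hBA : B ⊆ A := fun b hb => (memA b).2 ⟨hBM hb, hB' b hb⟩
  have hN'q : (N' : ℚ) ≠ 0 := by exact_mod_cast hN'.ne'
  have hFlat : FlatD A B I := by
    refine ⟨hBA, ?_, ?_, ?_, ?_⟩
    · refine ⟨fun i => (κ' i : ℚ) / N', ?_, ?_, ?_⟩
      · intro i hi
        have h1 : 0 < κ' i := Nat.pos_of_ne_zero ((memI i).1 hi)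
        have h2 : (0 : ℚ) < κ' i := by exact_mod_cast h1
        have h3 : (0 : ℚ) < N' := by exact_mod_cast hN'
        positivity
      · intro i hi
        have h1 : κ' i = 0 := by
          by_contra h
          exact hi ((memI i).2 h)
        simp [h1]
      · intro a ha
        unfold dq
        have h1 : ∑ i, (κ' i : ℚ) / N' * (a i : ℚ) = ((∑ i, κ' i * a i : ℕ) : ℚ) / N' := by
          push_cast
          rw [Finset.sum_div]
          exact Finset.sum_congr rfl fun i _ => by ring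
        rw [h1, hA a ha]
        exact div_self hN'q
    · intro t ht b hb
      obtain ⟨D, hD, hDz⟩ := den_clear B t
      choose z hz' using hDz
      have h0 := hind (fun α => z α.1 α.2) (by
        intro j
        have h1 : ((∑ α : B, z α.1 α.2 * (((α : σ →₀ ℕ) j : ℕ) : ℤ) : ℤ) : ℚ) = 0 := by
          push_cast
          have h2 : ∀ α ∈ (Finset.univ : Finset B), ((z α.1 α.2 : ℤ) : ℚ) * (((α : σ →₀ ℕ) j : ℕ) : ℚ)
              = (D : ℚ) * (t α.1 * (((α : σ →₀ ℕ) j : ℕ) : ℚ)) := by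
            intro α _
            rw [← hz' α.1 α.2]
            ring
          rw [Finset.sum_congr rfl h2, ← Finset.mul_sum]
          have h3 : ∑ α : B, t α.1 * (((α : σ →₀ ℕ) j : ℕ) : ℚ) = ∑ b ∈ B, t b * (b j : ℚ) :=
            Finset.sum_coe_sort B (fun b => t b * (b j : ℚ))
          rw [h3, ht j, mul_zero]
        exact_mod_cast h1)
      have h4 : z b hb = 0 := by
        have := congrFun h0 ⟨b, hb⟩
        simpa using this
      have h5 := hz' b hb
      rw [h4] at h5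
      have h6 : (D : ℚ) ≠ 0 := by exact_mod_cast hD.ne'
      have h7 : t b * (D : ℚ) = 0 := by rw [h5]; simp
      rcases mul_eq_zero.1 h7 with h | h
      · exact h
      · exact absurd h h6
    · intro v hv hb
      exact hflat v (fun i hi => hv i (by
        intro h
        exact (memI i).1 h ((hz i).2 hi))) hb
    · intro v hv hnn hb a ha
      have ha' := (memA a).1 ha
      refine hmin v (fun i hi => hv i (by
        intro h
        exact (memI i).1 h ((hz i).2 hi))) (fun a ha1 ha2 => hnn a ((memA a).2 ⟨ha1, ha2⟩)) hb a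
        ha'.1 ha'.2
  have hGood : GoodB B I := by
    intro b hb j hj hbj hpr
    have hκj : κ j ≠ 0 := fun h => (memI j).1 hj ((hz j).2 h)
    obtain ⟨l, hl1, hl2, hl3, hl4⟩ := hgood b hb j hκj hbj hpr
    exact ⟨l, (memI l).2 (fun h => hl2 ((hz l).1 h)), hl1, hl3, hl4⟩
  obtain ⟨y, Q, μ, hdual, hy1, hPQ, hQI, hμpos, hQ1, hI1, hgap1, hgap2, hgen⟩ :=
    hlpr σ A B I hFlat
  set P : Finset σ := Finset.univ.filter (fun i => 0 < y i) with hPdef
  set K : Finset σ := Finset.univ.filter (fun i => y i = 1) with hKdef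
  have memP : ∀ i, i ∈ P ↔ 0 < y i := by
    intro i
    simp [hPdef]
  have memK : ∀ i, i ∈ K ↔ y i = 1 := by
    intro i
    simp [hKdef]
  have hPI : P ⊆ I := fun i hi => hQI (hPQ i ((memP i).1 hi))
  have hKP : K ⊆ P := by
    intro i hi
    rw [memP, (memK i).1 hi]
    exact one_pos
  have hp1 : ∀ i, 0 < y i → cmbR A μ i = 1 := fun i hi => hQ1 i (hPQ i hi)
  refine ⟨κ', N', K, P, fun i => cmbR A μ i, ?_, hz, hslope, hKP, ?_, ?_, ?_⟩
  · refine ⟨hN', fun α hα => hge' α hα, ?_, ?_, hPI, ?_, ?_, ?_, ?_⟩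
    · obtain ⟨b, hb⟩ := hBne
      exact ⟨b, hBA hb⟩
    · exact hflt σ A I fun v hv hv0 => hFlat.flat v hv fun b hb => hv0 b (hBA hb)
    · intro i hi
      exact hp1 i ((memP i).1 hi)
    · intro i hi
      exact hI1 i hi
    · refine ⟨fun z => ∑ α ∈ A.filter (fun α => cz α = z), μ α, ?_, ?_⟩
      · intro z
        refine Finset.sum_nonneg fun α hα => (hμpos α (Finset.mem_filter.1 hα).1).le
      · intro i _
        rw [toZ_eq]
        show cmbR A μ i = _
        unfold cmbR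
        refine Finset.sum_congr rfl fun α hα => ?_
        have h1 : A.filter (fun β => cz β = cz α) = {α} := by
          ext β
          simp only [Finset.mem_filter, Finset.mem_singleton]
          constructor
          · rintro ⟨_, h⟩
            exact cz_inj h
          · rintro rfl
            exact ⟨hα, rfl⟩
        rw [h1, Finset.sum_singleton]
    · intro v hv hr
      obtain ⟨w, hw1, hw2⟩ := hgen v hv hr
      refine ⟨w, fun i hi => ⟨hQI (hw1 i hi), hQ1 i (hw1 i hi)⟩, fun α hα => hw2 α hα⟩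
  · intro k hk m hInC hht hge1
    obtain ⟨l, hl0, hl1⟩ := hInC
    have hq : ∀ i ∈ I, pt (fun i => cmbR A μ i) m i = cmbR A (fun α => l (cz α)) i := by
      intro i hi
      rw [hl1 i hi, toZ_eq]
      rfl
    have e1 : ∑ i, (κ' i : ℝ) * pt (fun i => cmbR A μ i) m i
        = (N' : ℝ) * ∑ a ∈ A, l (cz a) :=
      weight_sum A κ' N' hA (fun α => l (cz α)) _ (fun i hi => hq i ((memI i).2 hi))
    have e2 : ∑ i, (κ' i : ℝ) * cmbR A μ i = (N' : ℝ) * ∑ a ∈ A, μ a :=
      weight_sum A κ' N' hA μ _ (fun i _ => rfl)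
    have hN'r : (0 : ℝ) < N' := by exact_mod_cast hN'
    have e3 : (N' : ℝ) * ∑ a ∈ A, l (cz a) = (N' : ℝ) * (∑ a ∈ A, μ a - 1) := by
      rw [← e1, hht]
      show ∑ i, (κ' i : ℝ) * cmbR A μ i - (N' : ℝ) = _
      rw [e2]
      ring
    have e4 : ∑ a ∈ A, l (cz a) = ∑ a ∈ A, μ a - 1 := mul_left_cancel₀ hN'r.ne' e3
    have hpt : ∀ i, 0 < y i → pt (fun i => cmbR A μ i) m i = ((m i : ℤ) : ℝ) := by
      intro i hi
      show ((m i : ℤ) : ℝ) - 1 + cmbR A μ i = ((m i : ℤ) : ℝ)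
      rw [hp1 i hi]
      ring
    obtain ⟨f1, f2, f3⟩ := (hdgr σ A I y μ hdual hy1 hgap1 hgap2 k hk).1
      (pt (fun i => cmbR A μ i) m) (fun α => l (cz α)) (fun a _ => hl0 _) hq e4.le
      (fun i hi => ⟨m i, hpt i hi⟩)
      (fun i hi hik => by
        rw [hpt i hi]
        exact_mod_cast hge1 i ((memP i).2 hi) hik)
    have hyk : 0 < y k := by rw [f1]; exact one_pos
    refine ⟨(memK k).2 f1, ?_, ?_⟩
    · rw [hpt k hyk] at f2
      exact_mod_cast f2
    · intro i hi hik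
      have hi' := (memP i).1 hi
      have := f3 i hi' hik
      rw [hpt i hi'] at this
      exact_mod_cast this
  · intro k hk α hα hne
    have hkI : k ∈ I := hPI (hKP hk)
    obtain ⟨g1, g2⟩ := (hdgr σ A I y μ hdual hy1 hgap1 hgap2 k hkI).2 ((memK k).1 hk) α hα hne
    exact ⟨g1, fun i hi hik => g2 i ((memP i).1 hi) hik⟩
  · intro K' hK'
    exact hwsk σ A B I y hFlat hGood hdual K' (fun k hk => (memK k).1 (hK' hk))

end Pool.Agent.NDR.H1
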